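import Pool.Agent.Lib.MP_561634_an.Total

/-!
# The sequences `exp (- a k ^ p)` are complex zero decreasing sequences

For all real `p ≥ 3` and `a ≥ 1` the operator which multiplies the coefficient of `x ^ k` by
`exp (- a k ^ p)` does not increase the number of non-real zeros of a real polynomial.
-/

set_option autoImplicit false

open Polynomial

namespace Pool.Agent.Results.MP_561634_an.RealExponents

/-- The number of non-real zeros of a real polynomial, counted with multiplicity: the number of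
members with non-zero imaginary part of the multiset of its complex roots. -/
noncomputable def Zc (f : ℝ[X]) : ℕ :=
  ((f.map (algebraMap ℝ ℂ)).roots.filter fun z : ℂ => z.im ≠ 0).card

/-- The action of a real sequence on polynomials: `∑ a_k x ^ k` is sent to `∑ γ_k a_k x ^ k`. -/
noncomputable def act (γ : ℕ → ℝ) (f : ℝ[X]) : ℝ[X] :=
  ∑ k ∈ Finset.range (f.natDegree + 1), C (γ k * f.coeff k) * X ^ k

/-- Complex zero decreasing sequences. -/
def IsCZDS (γ : ℕ → ℝ) : Prop := ∀ f : ℝ[X], Zc (act γ f) ≤ Zc f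

lemma act_coeff (γ : ℕ → ℝ) (f : ℝ[X]) (n : ℕ) : (act γ f).coeff n = γ n * f.coeff n := by
  unfold act
  rw [finsetSum_coeff]
  simp only [coeff_C_mul, coeff_X_pow]
  by_cases h : n < f.natDegree + 1
  · rw [Finset.sum_eq_single n]
    · simp
    · intro b _ hb
      simp [Ne.symm hb]
    · intro h'
      exact absurd (Finset.mem_range.mpr h) h'
  · rw [Finset.sum_eq_zero]
    · rw [coeff_eq_zero_of_natDegree_lt (by omega), mul_zero]
    · intro b hb
      have : n ≠ b := by
        intro h'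
        rw [h'] at h
        exact h (Finset.mem_range.mp hb)
      simp [this]

lemma second_difference {p : ℝ} (hp : 3 ≤ p) (k : ℕ) :
    2 * ((k + 1 : ℕ) : ℝ) ^ p + 6 ≤ ((k + 2 : ℕ) : ℝ) ^ p + (k : ℝ) ^ p := by
  -- the function `g x = (x + 2) ^ p - 2 (x + 1) ^ p + x ^ p` is monotone on `[0, ∞)`
  have hmono : MonotoneOn (fun x : ℝ => (x + 2) ^ p - 2 * (x + 1) ^ p + x ^ p) (Set.Ici 0) := by
    have hder : ∀ x : ℝ, HasDerivAt (fun x : ℝ => (x + 2) ^ p - 2 * (x + 1) ^ p + x ^ p)
        (p * (x + 2) ^ (p - 1) - 2 * (p * (x + 1) ^ (p - 1)) + p * x ^ (p - 1)) x := by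
      intro x
      have h1 : HasDerivAt (fun x : ℝ => (x + 2) ^ p) (p * (x + 2) ^ (p - 1)) x := by
        have := ((hasDerivAt_id x).add_const (2 : ℝ)).rpow_const (p := p)
          (Or.inr (by linarith))
        simpa using this
      have h2 : HasDerivAt (fun x : ℝ => (x + 1) ^ p) (p * (x + 1) ^ (p - 1)) x := by
        have := ((hasDerivAt_id x).add_const (1 : ℝ)).rpow_const (p := p)
          (Or.inr (by linarith))
        simpa using this
      have h3 : HasDerivAt (fun x : ℝ => x ^ p) (p * x ^ (p - 1)) x :=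
        Real.hasDerivAt_rpow_const (Or.inr (by linarith))
      exact (h1.sub (h2.const_mul 2)).add h3
    apply monotoneOn_of_deriv_nonneg (convex_Ici 0)
    · exact fun x _ => (hder x).continuousAt.continuousWithinAt
    · exact fun x _ => (hder x).differentiableAt.differentiableWithinAt
    · intro x hx
      rw [interior_Ici, Set.mem_Ioi] at hx
      rw [(hder x).deriv]
      have hc : ConvexOn ℝ (Set.Ici 0) (fun x : ℝ => x ^ (p - 1)) :=
        convexOn_rpow (by linarith)
      have hconv := hc.2 (Set.mem_Ici.mpr hx.le)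
        (Set.mem_Ici.mpr (by linarith : (0 : ℝ) ≤ x + 2))
        (by norm_num : (0 : ℝ) ≤ 1 / 2) (by norm_num : (0 : ℝ) ≤ 1 / 2) (by norm_num)
      simp only [smul_eq_mul] at hconv
      have h4 : (1 / 2 : ℝ) * x + 1 / 2 * (x + 2) = x + 1 := by ring
      rw [h4] at hconv
      have h5 : 0 ≤ (x + 2) ^ (p - 1) - 2 * (x + 1) ^ (p - 1) + x ^ (p - 1) := by linarith
      have h6 := mul_nonneg (show (0 : ℝ) ≤ p by linarith) h5
      linarith
  have h0 := hmono (Set.mem_Ici.mpr le_rfl) (Set.mem_Ici.mpr (Nat.cast_nonneg k))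
    (Nat.cast_nonneg (α := ℝ) k)
  simp only [zero_add, Real.one_rpow] at h0
  rw [Real.zero_rpow (by linarith)] at h0
  have h8 : (8 : ℝ) ≤ 2 ^ p := by
    calc (8 : ℝ) = 2 ^ (3 : ℝ) := by norm_num
      _ ≤ 2 ^ p := Real.rpow_le_rpow_of_exponent_le (by norm_num) hp
  push_cast
  linarith

/-- **Answer to Q1** (for all real exponents): for all real `p ≥ 3` and `a ≥ 1` the sequence
`exp (- a k ^ p)` is a complex zero decreasing sequence. -/
theorem result (p a : ℝ) (hp : 3 ≤ p) (ha : 1 ≤ a) :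
    IsCZDS fun k : ℕ => Real.exp (-(a * (k : ℝ) ^ p)) := by
  intro f
  have hA : ∀ k : ℕ, 2 * ((fun k : ℕ => a * (k : ℝ) ^ p) (k + 1)) + Real.log 400
      ≤ (fun k : ℕ => a * (k : ℝ) ^ p) (k + 2) + (fun k : ℕ => a * (k : ℝ) ^ p) k := by
    intro k
    have h1 := second_difference hp k
    have h2 := Pool.Agent.Lib.MP561634.log_400_le
    have h3 : (0 : ℝ) ≤ ((k + 2 : ℕ) : ℝ) ^ p + (k : ℝ) ^ p - 2 * ((k + 1 : ℕ) : ℝ) ^ p - 6 := by
      linarith
    have h4 := mul_nonneg (show (0 : ℝ) ≤ a by linarith) h3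
    show 2 * (a * ((k + 1 : ℕ) : ℝ) ^ p) + Real.log 400
      ≤ a * ((k + 2 : ℕ) : ℝ) ^ p + a * (k : ℝ) ^ p
    nlinarith
  have h := Pool.Agent.Lib.MP561634.czds (fun k : ℕ => a * (k : ℝ) ^ p) hA f
  have e : Pool.Agent.Lib.MP561634.diag (fun k : ℕ => Real.exp (-(a * (k : ℝ) ^ p))) f
      = act (fun k : ℕ => Real.exp (-(a * (k : ℝ) ^ p))) f := by
    ext n
    rw [act_coeff, Pool.Agent.Lib.MP561634.coeff_diag, mul_comm]
  rw [e] at h
  exact h

end Pool.Agent.Results.MP_561634_an.RealExponents
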